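import Pool.Agent.helper34.AC.All1

/-!
# MP_e0bd72_co: lower bounds for the average number of colours, uniformly in the chromatic number
-/

set_option autoImplicit false

namespace Pool.Agent.Results.MP_e0bd72_co.AsymptoticBound

open Pool.Agent.helper34.AC

/-- Uniformly in the chromatic number `r` of `G`: `A ≥ (1-e) L_2(n,r)` for `n ≥ n0(e)`, and `A ≥ L_2(n,r) - e` if moreover
`r² ≤ (e/4) n`. -/
theorem result :
    ∀ e : ℝ, 0 < e → ∃ n0 : ℕ, ∀ (V : Type) [Fintype V] (G : SimpleGraph V) (r : ℕ),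
      n0 ≤ Fintype.card V → (r : ℕ∞) = G.chromaticNumber →
      (1 - e) * L2 (Fintype.card V) r ≤ avg G ∧
      ((r : ℝ) ^ 2 ≤ e / 4 * (Fintype.card V : ℝ) → L2 (Fintype.card V) r - e ≤ avg G) := by
  intro e he
  obtain ⟨n1, h1⟩ := a_PB e he
  obtain ⟨n2, h2⟩ := a_PC e he
  refine ⟨max n1 n2, fun V _ G r hn hr => ⟨h1 V G r (le_trans (le_max_left _ _) hn) hr, fun h => ?_⟩⟩
  exact h2 V G r (le_trans (le_max_right _ _) hn) hr h

end Pool.Agent.Results.MP_e0bd72_co.AsymptoticBound
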