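import Pool.Agent.helper34.AC.All1

/-!
# MP_e0bd72_co: an explicit bound for the average number of colours by that of the edgeless graph, for all graphs
-/

set_option autoImplicit false

namespace Pool.Agent.Results.MP_e0bd72_co.EdgelessBound

open Pool.Agent.helper34.AC

/-- For every finite graph `G` with average `A = avg G`: `A ≥ L_1(n) - 1/(1 + log(A+1))`. -/
theorem result (V : Type) [Fintype V] (G : SimpleGraph V) :
    L1 (Fintype.card V) - 1 / (1 + Real.log (avg G + 1)) ≤ avg G :=
  (a_PA V G).2

end Pool.Agent.Results.MP_e0bd72_co.EdgelessBound
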