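import Pool.Agent.helper34.AC.All3

/-!
# MP_e0bd72_co: the conjecture for bounded chromatic number and large order
-/

set_option autoImplicit false

namespace Pool.Agent.Results.MP_e0bd72_co.FixedChi

open Pool.Agent.helper34.AC

/-- For every `r` there is `n0` such that every graph `G` of order `n ≥ n0` with chromatic number at least `r` satisfies `A(G) ≥ L_2(n,r)`,
with equality if and only if `G` is isomorphic to `K_r ∪ (n-r) K_1`. -/
theorem result :
    ∀ r : ℕ, ∃ n0 : ℕ, ∀ (V : Type) [Fintype V] (G : SimpleGraph V), n0 ≤ Fintype.card V →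
      (r : ℕ∞) ≤ G.chromaticNumber →
      L2 (Fintype.card V) r ≤ avg G ∧
      (avg G = L2 (Fintype.card V) r ↔ Nonempty (G ≃g KU (Fintype.card V) r)) :=
  a_FCH

end Pool.Agent.Results.MP_e0bd72_co.FixedChi
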